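import Pool.Agent.V11227.JonesGn6
import Pool.Agent.Y463.KN.Basic

/-!
# Random elements of groups of braids with almost arbitrary linking numbers in knotoid diagrams

Diagrams (starting library `Pool.Agent.H891R2.Jones.Diagram`): `Diagram P` (oriented link diagrams with
marked points `P`, planar or not; the components of a state are circles and intervals), `Diagram.fPoly` (the normalised bracket `(-A^{-3})^{w(D)} ⟨D⟩`),
`Diagram.IsClosed`, `Outer m` (the part of an oriented diagram outside a box through which `m` strands
run, with arbitrary directions `O.up`), `Outer.close` (fills the box with vertical strands).  Starting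
library `Pool.Agent.W639.RB.Defs`: `Letter m` (the letters `σ_i^{±1}` of the braid group on `m` strands).

Definitions of the starting library (`Pool.Agent.Y463.SK.Defs`, `Pool.Agent.Y463.RW.Defs`) for words
(lists of letters): `permW w` (the permutation of the strands), `powW w n` (the power `w^n`, `n ∈ ℤ`),
`IsPure w` (`permW w = 1`), `dia O w` (the diagram obtained by drawing `w` in the box of `O` and filling
the rest of the box with vertical strands), `prodW w u` (the product `w_{i_1}^{±1} ⋯ w_{i_n}^{±1}` given
by the sequence `u` of `n` pairs `(i, ±)`).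

Definitions of `Pool.Agent.V11227`: `JL.cr w a b` (`JonesLk2`): the number of the letters `σ_i` minus the
number of the letters `σ_i⁻¹` of `w` at which the strands cross that start at the places `a` and `b`;
`GN.Pr m` (`JonesGn3`): the pairs `a < b` of strands; `GN.IsLk w l` (`JonesGn5`): `cr w a b = 2 l_{ab}`
for all `a < b`, that is, if `w` is pure and all strands run upwards, `l` is the matrix of the linking
numbers of the strands of `w`.
-/

set_option autoImplicit false

namespace Pool.Agent.Results.MP_79b4ff_gt.GenericLinkingSubgroups

open Finset LaurentPolynomial Pool.Agent.H891R2.Jones Pool.Agent.W639.RB Pool.Agent.Y463.SK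
  Pool.Agent.Y463.RW Pool.Agent.H832R3.TW Pool.Agent.Y463.KN
  Pool.Agent.V11227.JL Pool.Agent.V11227.GN

open Classical in
/-- **Random elements of groups of braids in knotoid diagrams.**  Let `m ≥ 3`.

(1) There is a set `B` of integral matrices `(l_{ab})`, `a < b`, which contains at most
`2^m m! (2N+1)^(C(m,2)-1)` of the `(2N+1)^C(m,2)` matrices with entries in `[-N, N]`, for every `N`, and
has the following property (2).  Every matrix is the linking matrix of a pure braid word, and every pure
braid word has a linking matrix.

(2) For every `s ≥ 1` there is a constant `C` with the following property.  Let `O` be the part of an oriented diagram (of a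
knotoid or a link)
outside a box through which `m` strands run, with arbitrary directions, and let `w_1, …, w_s` be braid
words on `m` strands such that for some product `g` of the words `w_i^{±1}` and some `r ≥ 0` the word
`g^r` is pure and its linking matrix is not in `B`.  Then for every braid word `v`, every Laurent
polynomial `F` (for instance `1`, the normalised bracket of the trivial knotoid) and all `n ≥ 1`, at most
`C n^{-c} (2 s)^n` of the `(2 s)^n` products `u = w_{i_1}^{±1} ⋯ w_{i_n}^{±1}` give a diagram, with
the braid `u v` in the box, whose normalised bracket is `F`, where `c = 1 / (3 · 2^(m! 2^m + 2))`.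

(3) If `O`, with vertical strands in the box, is a diagram of a knotoid (`IsKnotoid`, starting library
`Pool.Agent.H832R3.TW.E`: the pieces form one oriented interval and possibly closed curves) and the
permutations of the words `w_i` and of `v` preserve the directions of the strands, then all these
diagrams are diagrams of knotoids. -/
theorem result (m : ℕ) (hm : 3 ≤ m) : ∃ B : Set (Pr m → ℤ),
    (∀ N : ℕ, {l : Pr m → ℤ | l ∈ B ∧ ∀ p, |l p| ≤ N}.Finite ∧
      {l : Pr m → ℤ | l ∈ B ∧ ∀ p, |l p| ≤ N}.ncard ≤
        2 ^ m * m.factorial * (2 * N + 1) ^ (m.choose 2 - 1)) ∧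
    Fintype.card (Pr m) = m.choose 2 ∧
    (∀ l : Pr m → ℤ, ∃ w : List (Letter m), IsPure w ∧ IsLk w l) ∧
    (∀ w : List (Letter m), IsPure w → ∃ l : Pr m → ℤ, IsLk w l) ∧
    ∀ s : ℕ, 0 < s → ∃ C : ℝ, 0 < C ∧ ∀ (O : Outer m) (w : Fin s → List (Letter m)),
      (∃ (k : ℕ) (a : Fin k → Fin s × Bool) (r : ℕ), IsPure (powW (prodW w a) r) ∧
        ∃ l, l ∉ B ∧ IsLk (powW (prodW w a) r) l) →
      (∀ (v : List (Letter m)) (F : ℤ[T;T⁻¹]) (n : ℕ), 0 < n →
        ((univ.filter (fun u : Fin n → Fin s × Bool =>
          (dia O (prodW w u ++ v)).fPoly = F)).card : ℝ) ≤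
            C * (n : ℝ) ^ (-(1 / (3 * 2 ^ (m.factorial * 2 ^ m + 2))) : ℝ) * (2 * s : ℝ) ^ n) ∧
      (IsKnotoid O.close → ∀ v : List (Letter m), (∀ i j, O.up (permW (w i) j) = O.up j) →
        (∀ j, O.up (permW v j) = O.up j) → ∀ (n : ℕ) (u : Fin n → Fin s × Bool),
          IsKnotoid (dia O (prodW w u ++ v))) := by
  refine ⟨Bad m, bad_count_all m, card_pr, fun l => exists_matrix l, fun w hw => exists_lk w hw,
    fun s hs => ⟨m.factorial * Cst (2 * s : ℝ) (dimB m + 1), mul_pos (by positivity)
    (lt_of_lt_of_le one_pos (Cst_ge _ _)), fun O w h => ⟨fun v F n hn => ?_, fun hO v hw hv n u =>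
      knotoid_dia O hO _ fun j => dir_prod O w hw v hv u j⟩⟩⟩
  obtain ⟨k, a, r, hr, l, hb, hl⟩ := h
  exact na_random_all (by omega) hs O w k a r hr (noAll_good hm O _ hr l hl hb) v F n hn

end Pool.Agent.Results.MP_79b4ff_gt.GenericLinkingSubgroups
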