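import Pool.Agent.V11227.JonesLk8
import Pool.Agent.Y463.KN.Basic

/-!
# The normalised brackets of the knotoids obtained by inserting powers of linked braids

Diagrams (starting library `Pool.Agent.H891R2.Jones.Diagram`): `Diagram P` (oriented diagrams with marked
points `P`, planar or not; `Diagram.loops`, the number of components of a state, counts circles and
intervals), `Diagram.fPoly` (the normalised bracket `(-A^{-3})^{w(D)} ⟨D⟩`), `Outer m` (the part of an
oriented diagram outside a box through which `m` strands run, with arbitrary directions `O.up`),
`Outer.close` (fills the rest of the box with vertical strands).  `IsKnotoid D` (starting library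
`Pool.Agent.H832R3.TW.E`): the pieces of `D` form one oriented interval, running from a marked point `tail`
to a different marked point `head`, and (possibly) oriented closed curves.  Starting library
`Pool.Agent.W639.RB.Defs`: `Letter m` (the letters `σ_i^{±1}` of the braid group on `m` strands).

Definitions of the starting library `Pool.Agent.Y463.SK.Defs`, for words `w` (lists of letters):
`powW w n` (the power `w^n`, `n ∈ ℤ`), `permW w` (the permutation of the strands), `IsPure w`
(`permW w = 1`), `dia O w` (the diagram obtained by drawing `w` in the box of `O` and filling the rest of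
the box with vertical strands), `multiW w v n = w_1^{n_1} v_1 w_2^{n_2} v_2 ⋯ w_k^{n_k} v_k`.

Definitions of `Pool.Agent.V11227`: `JL.cr w a b` (`JonesLk2`): the number of the letters `σ_i` minus the
number of the letters `σ_i⁻¹` of `w` at which the strands cross that start at the places `a` and `b`;
for a pure word this is twice the linking number of these strands if they have the same direction, and
minus twice the linking number otherwise.  `JL.LinkedAt O u w` (`JonesLk8`):
`∑_{a,b} |cr w a b| < |∑_{a,b} c_{a,b} cr w a b|`, where `c_{a,b} = 2` if the strands `a` and `b` (of the
box, after the braid `u`) have the same direction and `c_{a,b} = -1` otherwise; `JL.Linked O w`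
(`JonesLk7`): the same condition for the empty word `u`.  `JP.positive w`, `JP.negative w`
(`JonesPos3`): the numbers of the letters `σ_i` and `σ_i⁻¹` of `w`.  `JP.Mostly O u w r`
(`JonesPos3`): three times the contribution `c` of `w^r` to the writhe of the diagram `dia O (u w^r)` is
larger than `r (positive w + 3 negative w)`, or `-3 c` is larger than `r (negative w + 3 positive w)`.

Outline.  The starting library (`Y463.SK.Gen`) shows that either all the members of such a family, for
the exponents in one residue class modulo `r`, have the same polynomial `F`, or at most `m!` of them.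
The new part excludes the first alternative.  Let `c` be the contribution of the pure braid `w` to the
writhe and `e` its exponent sum.  Modulo `(A + 1)²` the operator of `w` in the Temperley-Lieb algebra,
multiplied by `A^{-3c}`, is `1 + (A + 1) b`, where `b` is the image of the element `(3 c + e) + ξ` of the
integral group ring of the symmetric group, `ξ` being the sum of the transpositions
`(a, b)` with the coefficients `cr w a b`.  The linking condition says that the coefficient of `1`
dominates the other ones, so this element is not a zero divisor and it is annihilated by an integral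
polynomial with a nonzero constant term.  If all the powers of `w` had the same polynomial `F`, the
operator `b` would act as zero on the corresponding functional, and `F` would be zero.
-/

set_option autoImplicit false

namespace Pool.Agent.Results.MP_79b4ff_gt.LinkedKnotoidPowers

open Finset LaurentPolynomial Pool.Agent.H891R2.Jones Pool.Agent.W639.RB Pool.Agent.Y463.SK
  Pool.Agent.H832R3.TW Pool.Agent.Y463.KN Pool.Agent.V11227.JP Pool.Agent.V11227.JL

open Classical in
/-- **Inserting powers of linked braids in a knotoid diagram.**  Let `O` be the part of a diagram of a
knotoid outside a box through which `m ≥ 1` strands run (with arbitrary directions; the endpoints of the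
knotoid may be anywhere outside the box).

(1) A braid word `x` whose permutation preserves the directions of the strands gives a diagram of a
knotoid when it is drawn in the box.

(2) Let `u, w, v` be braid words on `m` strands and `r ≥ 1` such that `w^r` is pure and satisfies the
linking condition `LinkedAt O u (w^r)`.  Let `K(n)`, `n ∈ ℤ`, be the diagram with the braid `u w^n v`
in the box.  Then every Laurent polynomial, for instance `1`, the normalised bracket of the trivial
knotoid, is the normalised bracket of at most `r m!` of the diagrams `K(n)`; and among any `Z` of them
there are at least `Z / (r m!)` different normalised brackets.  If `w` is pure and the permutation of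
`u v` preserves the directions of the strands, then all the `K(n)` are diagrams of knotoids and at most
`m!` of them have the normalised bracket `F`.

(3) Let all strands of the box run upwards, let `w_1, …, w_k` and `v_1, …, v_k` be words, `r_i` such
that `w_i^{r_i}` is pure, and suppose that `Linked O (w_i^{r_i})` holds for one `i`.  For `s, q ∈ ℤ^k`
let `K(q)` be the diagram with the braid `w_1^{n_1} v_1 ⋯ w_k^{n_k} v_k`, `n_i = r_i q_i + s_i`, in the
box.  All `K(q)` are diagrams of knotoids, and for all finite sets `A_1, …, A_k` of integers and every `F`
at most `m! ∑_i ∏_{j ≠ i} |A_j|` of the `∏_j |A_j|` diagrams `K(q)`, `q ∈ A_1 × ⋯ × A_k`, have the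
normalised bracket `F`.

(4) The linking condition `LinkedAt O u w` holds for every word `w` (with arbitrary directions) such
that all the linking numbers `± cr w a b` (the sign is `+` for strands with the same direction, `-`
otherwise) have the same sign `ε` or are zero and two strands with the same direction have a nonzero
linking number.  It holds for `w^r` if `r > 0`, all strands run upwards and `w` has more than three
times as many positive as negative letters or the other way round, and, for arbitrary directions, if
`Mostly O u w r` holds. -/
theorem result (m : ℕ) (hm : 0 < m) (O : Outer m) (hO : IsKnotoid O.close) :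
    (∀ x : List (Letter m), (∀ j, O.up (permW x j) = O.up j) → IsKnotoid (dia O x)) ∧
    (∀ (u w v : List (Letter m)) (r : ℕ), 0 < r → IsPure (powW w r) → LinkedAt O u (powW w r) →
      (∀ F : ℤ[T;T⁻¹], {n : ℤ | (dia O (u ++ (powW w n ++ v))).fPoly = F}.Finite ∧
        {n : ℤ | (dia O (u ++ (powW w n ++ v))).fPoly = F}.ncard ≤ r * m.factorial) ∧
      (∀ Z : Finset ℤ, Z.card ≤
        r * m.factorial * (Z.image fun n => (dia O (u ++ (powW w n ++ v))).fPoly).card)) ∧
    (∀ u w v : List (Letter m), IsPure w → LinkedAt O u w → (∀ j, O.up (permW (u ++ v) j) = O.up j) →
      (∀ n : ℤ, IsKnotoid (dia O (u ++ (powW w n ++ v)))) ∧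
      ∀ F : ℤ[T;T⁻¹], {n : ℤ | (dia O (u ++ (powW w n ++ v))).fPoly = F}.ncard ≤ m.factorial) ∧
    (∀ (k : ℕ) (w v : Fin k → List (Letter m)) (r : Fin k → ℕ), (∀ j, O.up j = true) →
      (∀ i, IsPure (powW (w i) (r i))) → (∃ i, Linked O (powW (w i) (r i))) → ∀ s : Fin k → ℤ,
      (∀ q : Fin k → ℤ, IsKnotoid (dia O (multiW w v (fun i => r i * q i + s i)))) ∧
      ∀ (F : ℤ[T;T⁻¹]) (A : Fin k → Finset ℤ),
        ((Fintype.piFinset A).filter
          (fun q => (dia O (multiW w v (fun i => r i * q i + s i))).fPoly = F)).card ≤
            m.factorial * ∑ i, ∏ j ∈ univ.erase i, (A j).card) ∧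
    ((∀ (u w : List (Letter m)) (ε : ℤ), ε = 1 ∨ ε = -1 →
        (∀ a b, 0 ≤ ε * ((if O.up (permW u a) = O.up (permW u b) then 1 else -1) * cr w a b)) →
        (∃ a b, O.up (permW u a) = O.up (permW u b) ∧ cr w a b ≠ 0) → LinkedAt O u w) ∧
      (∀ (u w : List (Letter m)) (r : ℕ), 0 < r → (∀ j, O.up j = true) →
        (3 * negative w < positive w ∨ 3 * positive w < negative w) → LinkedAt O u (powW w r)) ∧
      (∀ (u w : List (Letter m)) (r : ℕ), Mostly O u w r → LinkedAt O u (powW w r)) ∧
      ∀ w : List (Letter m), LinkedAt O [] w ↔ Linked O w) := by
  refine ⟨fun x hx => knotoid_dia O hO x hx, fun u w v r hr hp h => ⟨fun F =>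
      lk_one hm O u w v r hr hp h F, fun Z => lk_image hm O u w v r hr hp h Z⟩,
    fun u w v hp h hv => ?_, fun k w v r hup hr h s => ⟨fun q => ?_, fun F A =>
      lk_multi hm O (fun i j => by rw [hup i, hup j]) w v r hr h s F A⟩,
    ⟨fun u w ε hε h h' => linkedAt_of_sign O u w ε hε h h', fun u w r hr hup h =>
      linkedAt_of_letters O (fun i j => by rw [hup i, hup j]) u w r hr h, fun u w r h =>
      linkedAt_of_mostly O u w r h, fun w => linkedAt_nil O w⟩⟩
  · have e : powW w ((1 : ℕ) : ℤ) = w := by
      show (List.replicate 1 w).flatten = w
      simp
    refine ⟨fun n => knotoid_dia O hO _ fun j => ?_, fun F => ?_⟩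
    · have h1 : permW (powW w n) = 1 := by
        have h2 := permL_powL (w := toN w) (permL_of_pure hp) n
        rw [← toN_pow] at h2
        exact (Pool.Agent.Y463.RW.perm_iff _ []).1 (by rw [h2]; rfl)
      have h3 : permW (u ++ (powW w n ++ v)) = permW (u ++ v) := by
        rw [permW_append, permW_append, permW_append, h1, one_mul]
      rw [h3]
      exact hv j
    · have h1 := (lk_one hm O u w v 1 one_pos (by rw [e]; exact hp) (by rw [e]; exact h) F).2
      rwa [one_mul] at h1
  · exact knotoid_dia O hO _ fun j => by rw [hup, hup]

end Pool.Agent.Results.MP_79b4ff_gt.LinkedKnotoidPowers
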